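import Mathlib

set_option autoImplicit false

namespace Pool.Agent.Results.MP_8e7993_co.PathsAtMostTwo

/-- A walk using one extra arc `(w, y)`. -/
theorem walk_split {V : Type} (R R' : V → V → Prop) (w y : V)
    (h : ∀ a b, R' a b → R a b ∨ (a = w ∧ b = y)) {a b : V} (hab : Relation.ReflTransGen R' a b) :
    Relation.ReflTransGen R a b ∨
      (Relation.ReflTransGen R a w ∧ Relation.ReflTransGen R y b) := by
  induction hab with
  | refl => exact Or.inl .refl
  | tail _ hbc ih =>
    rcases h _ _ hbc with hR | ⟨rfl, rfl⟩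
    · rcases ih with h1 | ⟨h1, h2⟩
      · exact Or.inl (h1.tail hR)
      · exact Or.inr ⟨h1, h2.tail hR⟩
    · rcases ih with h1 | ⟨h1, _⟩
      · exact Or.inr ⟨h1, .refl⟩
      · exact Or.inr ⟨h1, .refl⟩

/-- In an inclusion-minimal feedback arc set `F`, no arc leaves a vertex `w` all of whose in-arcs
belong to `F` (helper46). -/
theorem no_through {V : Type} (G : Digraph V) (hloop : ∀ v, ¬ G.Adj v v) (F : Set (V × V))
    (hF : Minimal (fun S : Set (V × V) =>
              (∀ e ∈ S, G.Adj e.1 e.2) ∧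
              ∀ v : V, ¬ Relation.TransGen (fun a b => G.Adj a b ∧ (a, b) ∉ S) v v) F)
    (w y : V) (hin : ∀ x, G.Adj x w → (x, w) ∈ F) (hy : (w, y) ∈ F) : False := by
  obtain ⟨⟨hsub, hacyc⟩, hmin⟩ := hF
  set R : V → V → Prop := fun a b => G.Adj a b ∧ (a, b) ∉ F with hR
  set R' : V → V → Prop := fun a b => G.Adj a b ∧ (a, b) ∉ F \ {(w, y)} with hR'
  have hnot : ¬ (∀ v : V, ¬ Relation.TransGen R' v v) := by
    intro hall
    have hle := hmin (y := F \ {(w, y)}) ⟨fun e he => hsub e he.1, hall⟩ Set.sdiff_subset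
    exact (hle hy).2 rfl
  push Not at hnot
  obtain ⟨v, hv⟩ := hnot
  have hstep : ∀ a b, R' a b → R a b ∨ (a = w ∧ b = y) := by
    intro a b hab
    by_cases h : (a, b) ∈ F
    · right
      by_contra hne
      apply hab.2
      refine ⟨h, ?_⟩
      intro heq
      rw [Set.mem_singleton_iff, Prod.mk.injEq] at heq
      exact hne heq
    · exact Or.inl ⟨hab.1, h⟩
  -- a path from `y` to `w` avoiding `F`
  have hyw : Relation.ReflTransGen R y w := by
    obtain ⟨c, hvc, hcv⟩ := Relation.TransGen.tail'_iff.mp hv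
    rcases walk_split R R' w y hstep hvc with h1 | ⟨h1, h2⟩
    · rcases hstep _ _ hcv with h3 | ⟨rfl, rfl⟩
      · exact absurd (Relation.TransGen.tail'_iff.mpr ⟨c, h1, h3⟩) (hacyc v)
      · exact h1
    · rcases hstep _ _ hcv with h3 | ⟨rfl, rfl⟩
      · exact (h2.tail h3).trans h1
      · exact h1
  have hne : y ≠ w := by
    intro h
    have := hsub _ hy
    rw [h] at this
    exact hloop w this
  rcases Relation.ReflTransGen.cases_tail hyw with h | ⟨c, _, hc⟩
  · exact hne h.symm
  · exact hc.2 (hin c hc.1)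

/-! ### The digraphs -/

/-- Hubs `(l, inl x)` and private vertices `(l, inr (x, j))` of in-degree one. -/
abbrev W (g d : ℕ) : Type := ZMod g × (Fin d ⊕ (Fin d × Fin d))

def adj (g d : ℕ) (v w : W g d) : Prop :=
  (∃ x j, v.2 = .inl x ∧ w.1 = v.1 ∧ w.2 = .inr (x, j)) ∨
  (∃ x j y, v.2 = .inr (x, j) ∧ w.1 = v.1 + 1 ∧ w.2 = .inl y)

def D (g d : ℕ) : Digraph (W g d) := ⟨adj g d⟩

theorem walk_level (g d : ℕ) (n : ℕ) (c : ℕ → W g d)
    (h : ∀ i < n, (D g d).Adj (c i) (c (i + 1))) :
    ∃ k ≤ n, (c n).1 = (c 0).1 + k ∧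
      (k = 0 → n = 0 ∨ ((∃ x, (c 0).2 = .inl x) ∧ ∃ q, (c n).2 = .inr q)) := by
  induction n with
  | zero => exact ⟨0, le_rfl, by simp, fun _ => Or.inl rfl⟩
  | succ n ih =>
    obtain ⟨k, hk, h1, h2⟩ := ih (fun i hi => h i (by omega))
    rcases h n (by omega) with ⟨x, j, e1, e2, e3⟩ | ⟨x, j, y, e1, e2, e3⟩
    · refine ⟨k, by omega, by rw [e2, h1], fun hk0 => Or.inr ?_⟩
      rcases h2 hk0 with rfl | ⟨_, ⟨q, hq⟩⟩
      · exact ⟨⟨x, e1⟩, ⟨_, e3⟩⟩
      · rw [e1] at hq; cases hq
    · exact ⟨k + 1, by omega, by rw [e2, h1]; push_cast; ring, by omega⟩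

/-- Every closed walk of positive length has at least `g` arcs. -/
theorem girth (g d : ℕ) (n : ℕ) (c : ℕ → W g d)
    (h : ∀ i < n, (D g d).Adj (c i) (c (i + 1))) (hc : c n = c 0) (hn : 0 < n) : g ≤ n := by
  obtain ⟨k, hk, h1, h2⟩ := walk_level g d n c h
  rw [hc] at h1 h2
  have h3 : (k : ZMod g) = 0 := by
    have := h1.symm
    simpa using this
  rw [ZMod.natCast_eq_zero_iff] at h3
  rcases Nat.eq_zero_or_pos k with h0 | h0
  · rcases h2 h0 with h4 | ⟨⟨x, hx⟩, ⟨q, hq⟩⟩
    · omega
    · rw [hx] at hq; cases hq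
  · exact (Nat.le_of_dvd h0 h3).trans hk

theorem outdeg (g d : ℕ) (v : W g d) : Nat.card {w : W g d // (D g d).Adj v w} = d := by
  rcases v with ⟨l, x | ⟨x, j⟩⟩
  · let e : Fin d ≃ {w : W g d // (D g d).Adj (l, .inl x) w} :=
      { toFun := fun j => ⟨(l, .inr (x, j)), Or.inl ⟨x, j, rfl, rfl, rfl⟩⟩
        invFun := fun w => match w.1.2 with
          | .inl y => y
          | .inr (_, j) => j
        left_inv := fun j => rfl
        right_inv := by
          rintro ⟨⟨l', q⟩, hw⟩
          rcases hw with ⟨x', j', e1, e2, e3⟩ | ⟨x', j', y', e1, e2, e3⟩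
          · simp only at e1 e2 e3
            subst e2 e3
            cases e1
            rfl
          · cases e1 }
    rw [← Nat.card_congr e, Nat.card_fin]
  · let e : Fin d ≃ {w : W g d // (D g d).Adj (l, .inr (x, j)) w} :=
      { toFun := fun y => ⟨(l + 1, .inl y), Or.inr ⟨x, j, y, rfl, rfl, rfl⟩⟩
        invFun := fun w => match w.1.2 with
          | .inl y => y
          | .inr (_, j) => j
        left_inv := fun j => rfl
        right_inv := by
          rintro ⟨⟨l', q⟩, hw⟩
          rcases hw with ⟨x', j', e1, e2, e3⟩ | ⟨x', j', y', e1, e2, e3⟩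
          · cases e1
          · simp only at e1 e2 e3
            subst e2 e3
            rfl }
    rw [← Nat.card_congr e, Nat.card_fin]

theorem loopless (g d : ℕ) (v : W g d) : ¬ (D g d).Adj v v := by
  rintro (⟨x, j, e1, e2, e3⟩ | ⟨x, j, y, e1, e2, e3⟩)
  · rw [e1] at e3; cases e3
  · rw [e1] at e3; cases e3

theorem paths (g d : ℕ) (F : Set (W g d × W g d))
    (hF : Minimal (fun S : Set (W g d × W g d) =>
              (∀ e ∈ S, (D g d).Adj e.1 e.2) ∧
              ∀ v, ¬ Relation.TransGen (fun a b => (D g d).Adj a b ∧ (a, b) ∉ S) v v) F)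
    (k : ℕ) (p : Fin (k + 1) → W g d) (hp : ∀ i : Fin k, (p i.castSucc, p i.succ) ∈ F) :
    k ≤ 2 := by
  by_contra hk
  push Not at hk
  -- a private vertex is never an inner vertex
  have key : ∀ (x y z : W g d), (x, y) ∈ F → (y, z) ∈ F → ∃ s, y.2 = .inl s := by
    intro x y z h1 h2
    rcases hy : y.2 with s | q
    · exact ⟨s, rfl⟩
    · exfalso
      refine no_through (D g d) (loopless g d) F hF y z ?_ h2
      intro x' hx'
      have hx := hF.1.1 _ h1
      have hxx : x' = x := by
        rcases hx with ⟨a, b, e1, e2, e3⟩ | ⟨a, b, c, e1, e2, e3⟩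
        · rcases hx' with ⟨a', b', e1', e2', e3'⟩ | ⟨a', b', c', e1', e2', e3'⟩
          · rw [hy] at e3 e3'
            have h4 := e3.symm.trans e3'
            have h5 := (Prod.mk.inj (Sum.inr.inj h4)).1
            apply Prod.ext
            · rw [← e2', e2]
            · rw [e1', e1, h5]
          · rw [hy] at e3'; cases e3'
        · rw [hy] at e3; cases e3
      rw [hxx]; exact h1
  have h01 := hp ⟨0, by omega⟩
  have h12 := hp ⟨1, by omega⟩
  have h23 := hp ⟨2, by omega⟩
  obtain ⟨s, hs⟩ := key _ _ _ h01 h12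
  obtain ⟨t, ht⟩ := key _ _ _ h12 h23
  have hA := hF.1.1 _ h12
  rcases hA with ⟨a, b, e1, e2, e3⟩ | ⟨a, b, c, e1, e2, e3⟩
  · have e3' : (p ⟨2, by omega⟩).2 = .inr (a, b) := e3
    have ht' : (p ⟨2, by omega⟩).2 = .inl t := ht
    rw [ht'] at e3'; cases e3'
  · have e1' : (p ⟨1, by omega⟩).2 = .inr (a, b) := e1
    have hs' : (p ⟨1, by omega⟩).2 = .inl s := hs
    rw [hs'] at e1'; cases e1'

/-! ### Two cycles with exactly one common vertex -/

/-- A simple path `w 0, ..., w N` with arcs `w N -> w M` and `w M -> w 0`, `0 < M < N`: some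
inclusion-minimal feedback arc set contains these two arcs. -/
theorem exists_fas_of_path {V : Type} [Finite V] (G : Digraph V) (w : ℕ → V) (N M : ℕ)
    (hMN : M ≤ N) (hinj : ∀ i ≤ N, ∀ j ≤ N, w i = w j → i = j)
    (harc : ∀ i < N, G.Adj (w i) (w (i + 1))) (h1 : G.Adj (w N) (w M)) (h2 : G.Adj (w M) (w 0)) :
    ∃ F : Set (V × V),
      Minimal (fun S : Set (V × V) =>
              (∀ e ∈ S, G.Adj e.1 e.2) ∧
              ∀ v : V, ¬ Relation.TransGen (fun a b => G.Adj a b ∧ (a, b) ∉ S) v v) F ∧
      (w N, w M) ∈ F ∧ (w M, w 0) ∈ F := by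
  set S0 : Set (V × V) := {e | G.Adj e.1 e.2 ∧ ¬ ∃ i < N, e = (w i, w (i + 1))} with hS0
  have hS0fas : (∀ e ∈ S0, G.Adj e.1 e.2) ∧
      ∀ v : V, ¬ Relation.TransGen (fun a b => G.Adj a b ∧ (a, b) ∉ S0) v v := by
    refine ⟨fun e he => he.1, fun v hv => ?_⟩
    have hstep : ∀ a b, (G.Adj a b ∧ (a, b) ∉ S0) → ∃ i < N, a = w i ∧ b = w (i + 1) := by
      intro a b ⟨hab, hn⟩
      by_contra hne
      apply hn
      refine ⟨hab, ?_⟩
      rintro ⟨i, hi, he⟩
      exact hne ⟨i, hi, (Prod.mk.inj he).1, (Prod.mk.inj he).2⟩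
    have htr : ∀ a b, Relation.TransGen (fun a b => G.Adj a b ∧ (a, b) ∉ S0) a b →
        ∃ i j, i < j ∧ j ≤ N ∧ a = w i ∧ b = w j := by
      intro a b hab
      induction hab with
      | single h =>
        obtain ⟨i, hi, ha, hb⟩ := hstep _ _ h
        exact ⟨i, i + 1, by omega, by omega, ha, hb⟩
      | tail _ h ih =>
        obtain ⟨i, j, hij, hj, ha, hb⟩ := ih
        obtain ⟨k, hk, hb', hc⟩ := hstep _ _ h
        have : j = k := hinj j hj k (by omega) (hb.symm.trans hb')
        exact ⟨i, k + 1, by omega, by omega, ha, hc⟩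
    obtain ⟨i, j, hij, hj, ha, hb⟩ := htr v v hv
    have := hinj i (by omega) j hj (ha.symm.trans hb)
    omega
  obtain ⟨F, hFS, hF⟩ := exists_minimal_le_of_wellFoundedLT (fun S : Set (V × V) =>
              (∀ e ∈ S, G.Adj e.1 e.2) ∧
              ∀ v : V, ¬ Relation.TransGen (fun a b => G.Adj a b ∧ (a, b) ∉ S) v v) S0 hS0fas
  have hpath : ∀ i j, i ≤ j → j ≤ N →
      Relation.ReflTransGen (fun a b => G.Adj a b ∧ (a, b) ∉ F) (w i) (w j) := by
    intro i j hij
    induction j, hij using Nat.le_induction with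
    | base => intro _; exact .refl
    | succ j hij ih =>
      intro hj
      refine (ih (by omega)).tail ⟨harc j (by omega), fun hmem => ?_⟩
      exact (hFS hmem).2 ⟨j, by omega, rfl⟩
  refine ⟨F, hF, ?_, ?_⟩
  · by_contra hn
    exact hF.1.2 _ (Relation.TransGen.tail' (hpath M N hMN le_rfl) ⟨h1, hn⟩)
  · by_contra hn
    exact hF.1.2 _ (Relation.TransGen.tail' (hpath 0 M (by omega) hMN) ⟨h2, hn⟩)

theorem iter_eq {V : Type} (f : V → V) (T' : Finset V)
    (hinj : ∀ x ∈ T', ∀ y ∈ T', f x = f y → x = y) (c c' : V) (hc : ∀ x ∈ T', f x ≠ c)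
    (hc' : ∀ x ∈ T', f x ≠ c') : ∀ i j : ℕ, (∀ k < i, f^[k] c ∈ T') → (∀ k < j, f^[k] c' ∈ T') →
      f^[i] c = f^[j] c' → i = j ∧ c = c' := by
  intro i
  induction i with
  | zero =>
    intro j _ hj h
    cases j with
    | zero => exact ⟨rfl, h⟩
    | succ j =>
      rw [Function.iterate_succ_apply'] at h
      exact absurd h.symm (hc _ (hj j (by omega)))
  | succ i ih =>
    intro j hi hj h
    cases j with
    | zero =>
      rw [Function.iterate_succ_apply'] at h
      exact absurd h (hc' _ (hi i (by omega)))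
    | succ j =>
      rw [Function.iterate_succ_apply', Function.iterate_succ_apply'] at h
      have := hinj _ (hi i (by omega)) _ (hj j (by omega)) h
      obtain ⟨h1, h2⟩ := ih j (fun k hk => hi k (by omega)) (fun k hk => hj k (by omega)) this
      exact ⟨by omega, h2⟩

/-- Assembling the two cycles through `t0`. -/
theorem assemble {V : Type} (E : V → V → Prop) (f : V → V) (T' : Finset V) (t0 u c c' : V)
    (hloop : ∀ v, ¬ E v v)
    (hinj : ∀ x ∈ T', ∀ y ∈ T', f x = f y → x = y) (hc : ∀ x ∈ T', f x ≠ c)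
    (hc' : ∀ x ∈ T', f x ≠ c') (hcc : c ≠ c') (hE : ∀ x ∈ T', f x = x ∨ E x (f x))
    (h1 : E t0 c) (h2 : E t0 c') (ht0 : t0 ∉ T')
    (m1 m2 m : ℕ) (hm1 : ∀ i < m1, f^[i] c ∈ T') (hm1' : f^[m1] c = t0)
    (hm2 : ∀ i < m2, f^[i] c' ∈ T') (hm2' : f^[m2] c' = u)
    (q : ℕ → V) (hq0 : q 0 = u) (hqm : q m = t0) (hqE : ∀ i < m, E (q i) (q (i + 1)))
    (hqT : ∀ i ≤ m, q i ∉ T') (hqinj : ∀ i ≤ m, ∀ j ≤ m, q i = q j → i = j) (hu : u ≠ t0) :
    ∃ (w : ℕ → V) (N M : ℕ), 0 < M ∧ M < N ∧ (∀ i ≤ N, ∀ j ≤ N, w i = w j → i = j) ∧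
      (∀ i < N, E (w i) (w (i + 1))) ∧ E (w N) (w M) ∧ E (w M) (w 0) := by
  have hm1pos : 0 < m1 := by
    rcases Nat.eq_zero_or_pos m1 with h | h
    · exfalso
      subst h
      simp only [Function.iterate_zero, id_eq] at hm1'
      rw [hm1'] at h1
      exact hloop _ h1
    · exact h
  have hmpos : 0 < m := by
    rcases Nat.eq_zero_or_pos m with h | h
    · exfalso
      subst h
      exact hu (hq0.symm.trans hqm)
    · exact h
  -- arcs along the orbits
  have horb : ∀ d : V, (∀ x ∈ T', f x ≠ d) → ∀ l : ℕ, (∀ i < l, f^[i] d ∈ T') → ∀ i < l,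
      E (f^[i] d) (f^[i + 1] d) := by
    intro d hd l hl i hi
    rcases hE _ (hl i hi) with h | h
    · exfalso
      have h' : f^[i + 1] d = f^[i] d := by rw [Function.iterate_succ_apply']; exact h
      have := (iter_eq f T' hinj d d hd hd (i + 1) i (fun k hk => hl k (by omega))
        (fun k hk => hl k (by omega)) h').1
      omega
    · rw [Function.iterate_succ_apply']; exact h
  refine ⟨fun n => if n ≤ m2 then f^[n] c' else if n ≤ m2 + m then q (n - m2)
      else f^[n - m2 - m - 1] c, m2 + m + m1, m2 + m, by omega, by omega, ?_, ?_, ?_, ?_⟩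
  · -- injectivity
    have key : ∀ i ≤ m2 + m + m1, ∀ j ≤ m2 + m + m1, i < j →
        (if i ≤ m2 then f^[i] c' else if i ≤ m2 + m then q (i - m2) else f^[i - m2 - m - 1] c) ≠
        (if j ≤ m2 then f^[j] c' else if j ≤ m2 + m then q (j - m2) else f^[j - m2 - m - 1] c) := by
      intro i hi j hj hij h
      by_cases hi1 : i ≤ m2
      · rw [if_pos hi1] at h
        by_cases hj1 : j ≤ m2
        · rw [if_pos hj1] at h
          have := (iter_eq f T' hinj c' c' hc' hc' i j (fun k hk => hm2 k (by omega))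
            (fun k hk => hm2 k (by omega)) h).1
          omega
        · rw [if_neg hj1] at h
          by_cases hj2 : j ≤ m2 + m
          · rw [if_pos hj2] at h
            rcases Nat.lt_or_ge i m2 with h3 | h3
            · exact hqT (j - m2) (by omega) (h ▸ hm2 i h3)
            · have h4 : i = m2 := by omega
              rw [h4, hm2', ← hq0] at h
              have := hqinj 0 (by omega) (j - m2) (by omega) h
              omega
          · rw [if_neg hj2] at h
            exact hcc (iter_eq f T' hinj c' c hc' hc i (j - m2 - m - 1)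
              (fun k hk => hm2 k (by omega)) (fun k hk => hm1 k (by omega)) h).2.symm
      · rw [if_neg hi1] at h
        have hj1 : ¬ j ≤ m2 := by omega
        rw [if_neg hj1] at h
        by_cases hi2 : i ≤ m2 + m
        · rw [if_pos hi2] at h
          by_cases hj2 : j ≤ m2 + m
          · rw [if_pos hj2] at h
            have := hqinj _ (by omega) _ (by omega) h
            omega
          · rw [if_neg hj2] at h
            exact hqT (i - m2) (by omega) (h ▸ hm1 (j - m2 - m - 1) (by omega))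
        · rw [if_neg hi2] at h
          have hj2 : ¬ j ≤ m2 + m := by omega
          rw [if_neg hj2] at h
          have := (iter_eq f T' hinj c c hc hc _ _ (fun k hk => hm1 k (by omega))
            (fun k hk => hm1 k (by omega)) h).1
          omega
    intro i hi j hj h
    rcases lt_trichotomy i j with h1 | h1 | h1
    · exact absurd h (key i hi j hj h1)
    · exact h1
    · exact absurd h.symm (key j hj i hi h1)
  · -- arcs
    intro i hi
    beta_reduce
    by_cases hi1 : i + 1 ≤ m2
    · rw [if_pos (by omega : i ≤ m2), if_pos hi1]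
      exact horb c' hc' m2 hm2 i (by omega)
    · rw [if_neg hi1]
      by_cases hi2 : i + 1 ≤ m2 + m
      · rw [if_pos hi2]
        have h3 := hqE (i - m2) (by omega)
        have h4 : i - m2 + 1 = i + 1 - m2 := by omega
        rw [h4] at h3
        by_cases hi3 : i ≤ m2
        · rw [if_pos hi3]
          have h5 : i = m2 := by omega
          have h6 : i - m2 = 0 := by omega
          rw [h6, hq0] at h3
          have h7 : f^[i] c' = u := by rw [h5]; exact hm2'
          rw [h7]
          exact h3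
        · rw [if_neg hi3, if_pos (by omega : i ≤ m2 + m)]
          exact h3
      · rw [if_neg hi2, if_neg (by omega : ¬ i ≤ m2)]
        by_cases hi3 : i ≤ m2 + m
        · rw [if_pos hi3]
          have h5 : i - m2 = m := by omega
          have h6 : i + 1 - m2 - m - 1 = 0 := by omega
          rw [h5, h6, hqm]
          exact h1
        · rw [if_neg hi3]
          have h5 : i + 1 - m2 - m - 1 = (i - m2 - m - 1) + 1 := by omega
          rw [h5]
          exact horb c hc m1 hm1 _ (by omega)
  · beta_reduce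
    rw [if_neg (by omega), if_neg (by omega), if_neg (by omega), if_pos le_rfl]
    have h5 : m2 + m - m2 = m := by omega
    rw [h5, hqm, ← hm1']
    have h6 : m2 + m + m1 - m2 - m - 1 = m1 - 1 := by omega
    rw [h6]
    have h7 := horb c hc m1 hm1 (m1 - 1) (by omega)
    rwa [Nat.sub_add_cancel hm1pos] at h7
  · beta_reduce
    rw [if_neg (by omega), if_pos le_rfl, if_pos (by omega)]
    have h5 : m2 + m - m2 = m := by omega
    rw [h5, hqm]
    exact h2

/-- The combinatorial core (Thomassen 1983: minimum out-degree at least two forces two directed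
cycles with exactly one common vertex), for two out-arcs `v -> a v`, `v -> b v` at each vertex. -/
theorem core {V : Type} [Finite V] [Nonempty V] (a b : V → V) (ha : ∀ v, a v ≠ v)
    (hb : ∀ v, b v ≠ v) (hab : ∀ v, a v ≠ b v) :
    ∃ (w : ℕ → V) (N M : ℕ), 0 < M ∧ M < N ∧ (∀ i ≤ N, ∀ j ≤ N, w i = w j → i = j) ∧
      (∀ i < N, w (i + 1) = a (w i) ∨ w (i + 1) = b (w i)) ∧
      (w M = a (w N) ∨ w M = b (w N)) ∧ (w 0 = a (w M) ∨ w 0 = b (w M)) := by
  classical
  have _ := Fintype.ofFinite V
  set E : V → V → Prop := fun x y => y = a x ∨ y = b x with hE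
  have hloop : ∀ v, ¬ E v v := by
    rintro v (h | h)
    · exact ha v h.symm
    · exact hb v h.symm
  set nb : Finset V → Finset V := fun X => X.image a ∪ X.image b with hnb
  have hnbE : ∀ X : Finset V, ∀ x ∈ X, ∀ y, E x y → y ∈ nb X := by
    rintro X x hx y (h | h)
    · rw [h]; exact Finset.mem_union_left _ (Finset.mem_image_of_mem _ hx)
    · rw [h]; exact Finset.mem_union_right _ (Finset.mem_image_of_mem _ hx)
  have hnbE' : ∀ X : Finset V, ∀ y ∈ nb X, ∃ x ∈ X, E x y := by
    intro X y hy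
    rcases Finset.mem_union.1 hy with h | h
    · obtain ⟨x, hx, rfl⟩ := Finset.mem_image.1 h
      exact ⟨x, hx, Or.inl rfl⟩
    · obtain ⟨x, hx, rfl⟩ := Finset.mem_image.1 h
      exact ⟨x, hx, Or.inr rfl⟩
  -- a minimal closed set `C`
  obtain ⟨C, _, hC⟩ := exists_minimal_le_of_wellFoundedLT
    (fun X : Finset V => X.Nonempty ∧ nb X ⊆ X) Finset.univ
    ⟨Finset.univ_nonempty, Finset.subset_univ _⟩
  obtain ⟨⟨hCne, hCcl⟩, hCmin⟩ := hC
  -- a minimal set `T` with small boundary
  obtain ⟨T, hTC, hT⟩ := exists_minimal_le_of_wellFoundedLT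
    (fun X : Finset V => X.Nonempty ∧ (nb X \ X).card ≤ 1) C
    ⟨hCne, by rw [Finset.sdiff_eq_empty_iff_subset.2 hCcl]; simp⟩
  obtain ⟨⟨hTne, hTb⟩, hTmin⟩ := hT
  have hmin : ∀ X : Finset V, X.Nonempty → X ⊆ T → X ≠ T → 2 ≤ (nb X \ X).card := by
    intro X hX hXT hne
    by_contra hlt
    push Not at hlt
    exact hne (hXT.antisymm (hTmin (y := X) ⟨hX, by omega⟩ hXT))
  -- `T` has at least two elements
  have hT2 : ∀ v ∈ T, (T.erase v).Nonempty := by
    intro v hv
    by_contra hne
    rw [Finset.not_nonempty_iff_eq_empty, Finset.erase_eq_empty_iff] at hne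
    have hT1 : T = {v} := by
      rcases hne with h | h
      · rw [h] at hv; simp at hv
      · exact h
    have h1 : ({a v, b v} : Finset V) ⊆ nb T \ T := by
      intro y hy
      rw [hT1]
      simp only [Finset.mem_insert, Finset.mem_singleton] at hy
      rw [Finset.mem_sdiff, Finset.mem_singleton]
      rcases hy with rfl | rfl
      · exact ⟨hnbE _ v (by simp) _ (Or.inl rfl), ha v⟩
      · exact ⟨hnbE _ v (by simp) _ (Or.inr rfl), hb v⟩
    have h2 := Finset.card_le_card h1
    rw [Finset.card_pair (hab v)] at h2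
    omega
  -- the boundary is nonempty
  have hTb1 : (nb T \ T).card = 1 := by
    rcases Nat.eq_zero_or_pos (nb T \ T).card with h0 | h0
    · exfalso
      rw [Finset.card_eq_zero, Finset.sdiff_eq_empty_iff_subset] at h0
      obtain ⟨v, hv⟩ := hTne
      have h1 := hmin (T.erase v) (hT2 v hv) (Finset.erase_subset _ _)
        (fun h => by
          have : v ∉ T := by rw [← h]; simp
          exact this hv)
      have h2 : nb (T.erase v) \ T.erase v ⊆ {v} := by
        intro y hy
        rw [Finset.mem_sdiff] at hy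
        obtain ⟨x, hx, hxy⟩ := hnbE' _ _ hy.1
        have hyT : y ∈ T := h0 (hnbE T x (Finset.mem_of_mem_erase hx) y hxy)
        rw [Finset.mem_singleton]
        by_contra hne
        exact hy.2 (Finset.mem_erase.2 ⟨hne, hyT⟩)
      have h3 := Finset.card_le_card h2
      rw [Finset.card_singleton] at h3
      omega
    · omega
  obtain ⟨u, hu⟩ := Finset.card_eq_one.1 hTb1
  have huT : u ∉ T := by
    have : u ∈ nb T \ T := by rw [hu]; simp
    exact (Finset.mem_sdiff.1 this).2
  have huC : u ∈ C := by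
    have : u ∈ nb T \ T := by rw [hu]; simp
    obtain ⟨x, hx, hxu⟩ := hnbE' _ _ (Finset.mem_sdiff.1 this).1
    exact hCcl (hnbE C x (hTC hx) u hxu)
  have hTu : ∀ x ∈ T, ∀ y, E x y → y ∈ T ∨ y = u := by
    intro x hx y hxy
    by_cases hy : y ∈ T
    · exact Or.inl hy
    · right
      have : y ∈ nb T \ T := Finset.mem_sdiff.2 ⟨hnbE T x hx y hxy, hy⟩
      rw [hu] at this
      exact Finset.mem_singleton.1 this
  -- a shortest path from `u` to `T`
  have hreach : ∃ m : ℕ, ∃ q : ℕ → V, q 0 = u ∧ q m ∈ T ∧ ∀ i < m, E (q i) (q (i + 1)) := by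
    set R : Finset V := Finset.univ.filter
      (fun y => y ∈ C ∧ ∃ m : ℕ, ∃ q : ℕ → V, q 0 = u ∧ q m = y ∧ ∀ i < m, E (q i) (q (i + 1)))
      with hR
    have hRne : R.Nonempty := ⟨u, by
      rw [hR, Finset.mem_filter]
      exact ⟨Finset.mem_univ _, huC, 0, fun _ => u, rfl, rfl, fun i hi => by omega⟩⟩
    have hRcl : nb R ⊆ R := by
      intro y hy
      obtain ⟨x, hx, hxy⟩ := hnbE' _ _ hy
      rw [hR, Finset.mem_filter] at hx ⊢
      obtain ⟨_, hxC, m, q, hq0, hqm, hqE⟩ := hx
      refine ⟨Finset.mem_univ _, hCcl (hnbE C x hxC y hxy), m + 1,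
        fun i => if i ≤ m then q i else y, ?_, ?_, ?_⟩
      · simp [hq0]
      · simp
      · intro i hi
        beta_reduce
        rw [if_pos (by omega : i ≤ m)]
        by_cases h : i + 1 ≤ m
        · rw [if_pos h]; exact hqE i (by omega)
        · rw [if_neg h]
          have : i = m := by omega
          rw [this, hqm]; exact hxy
    have hRC : R ⊆ C := by
      intro y hy
      rw [hR, Finset.mem_filter] at hy
      exact hy.2.1
    have hCR : C ⊆ R := hCmin (y := R) ⟨hRne, hRcl⟩ hRC
    obtain ⟨t, ht⟩ := hTne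
    have htR := hCR (hTC ht)
    rw [hR, Finset.mem_filter] at htR
    obtain ⟨_, _, m, q, hq0, hqm, hqE⟩ := htR
    exact ⟨m, q, hq0, hqm ▸ ht, hqE⟩
  obtain ⟨q, hq0, hqm, hqE⟩ := Nat.find_spec hreach
  set m := Nat.find hreach with hm
  have hqT : ∀ i < m, q i ∉ T := by
    intro i hi hmem
    exact Nat.find_min hreach hi ⟨q, hq0, hmem, fun j hj => hqE j (by omega)⟩
  have hqinj' : ∀ i j, i < j → j ≤ m → q i ≠ q j := by
    intro i j hij hj h
    have hlt : m - (j - i) < m := by omega
    refine Nat.find_min hreach hlt ⟨fun k => if k ≤ i then q k else q (k + (j - i)), ?_, ?_, ?_⟩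
    · simp [hq0]
    · beta_reduce
      by_cases h1 : m - (j - i) ≤ i
      · rw [if_pos h1]
        have h2 : m - (j - i) = i := by omega
        have h3 : j = m := by omega
        rw [h2, h, h3]; exact hqm
      · rw [if_neg h1]
        have h2 : m - (j - i) + (j - i) = m := by omega
        rw [h2]; exact hqm
    · intro k hk
      beta_reduce
      by_cases h1 : k + 1 ≤ i
      · rw [if_pos h1, if_pos (by omega : k ≤ i)]; exact hqE k (by omega)
      · rw [if_neg h1]
        by_cases h2 : k ≤ i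
        · rw [if_pos h2]
          have h3 : k = i := by omega
          have h4 : k + 1 + (j - i) = j + 1 := by omega
          rw [h4, h3, h]; exact hqE j (by omega)
        · rw [if_neg h2]
          have h4 : k + 1 + (j - i) = (k + (j - i)) + 1 := by omega
          rw [h4]; exact hqE _ (by omega)
  have hqinj : ∀ i ≤ m, ∀ j ≤ m, q i = q j → i = j := by
    intro i hi j hj h
    rcases lt_trichotomy i j with h1 | h1 | h1
    · exact absurd h (hqinj' i j h1 hj)
    · exact h1
    · exact absurd h.symm (hqinj' j i h1 hi)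
  clear_value m
  obtain ⟨t0, ht0⟩ : ∃ t0, q m = t0 := ⟨_, rfl⟩
  rw [ht0] at hqm
  -- Hall's theorem
  set T' := T.erase t0 with hT'
  have hT'T : ∀ x, x ∈ T' ↔ x ≠ t0 ∧ x ∈ T := fun x => Finset.mem_erase
  obtain ⟨f0, hf0, hf0'⟩ := (Finset.all_card_le_biUnion_card_iff_exists_injective
    (fun x : {x // x ∈ T'} => ({x.1, a x.1, b x.1} : Finset V) \ {a t0, b t0})).1 (by
      intro s
      rcases s.eq_empty_or_nonempty with rfl | hs
      · simp
      set X : Finset V := s.map (Function.Embedding.subtype _) with hX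
      have hXT' : X ⊆ T' := by
        intro x hx
        rw [hX, Finset.mem_map] at hx
        obtain ⟨y, _, rfl⟩ := hx
        exact y.2
      have h1 := hmin X (hs.map) (hXT'.trans (Finset.erase_subset _ _)) (fun h => by
        have : t0 ∈ T' := hXT' (by rw [h]; exact hqm)
        rw [hT'] at this
        simp at this)
      have h2 : (X ∪ nb X) \ {a t0, b t0} ⊆ s.biUnion
          (fun x : {x // x ∈ T'} => ({x.1, a x.1, b x.1} : Finset V) \ {a t0, b t0}) := by
        intro y hy
        rw [Finset.mem_sdiff] at hy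
        obtain ⟨x, hx, hxy⟩ : ∃ x ∈ X, y = x ∨ E x y := by
          rcases Finset.mem_union.1 hy.1 with h | h
          · exact ⟨y, h, Or.inl rfl⟩
          · obtain ⟨x, hx, hxy⟩ := hnbE' _ _ h
            exact ⟨x, hx, Or.inr hxy⟩
        rw [hX, Finset.mem_map] at hx
        obtain ⟨z, hz, rfl⟩ := hx
        rw [Finset.mem_biUnion]
        refine ⟨z, hz, ?_⟩
        rw [Finset.mem_sdiff]
        refine ⟨?_, hy.2⟩
        simp only [Finset.mem_insert, Finset.mem_singleton]
        exact hxy
      have h3 := Finset.card_le_card h2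
      have h4 : (X ∪ nb X).card = X.card + (nb X \ X).card := by
        rw [← Finset.union_sdiff_self_eq_union, Finset.card_union_of_disjoint]
        exact Finset.disjoint_sdiff
      have h5 := Finset.le_card_sdiff ({a t0, b t0} : Finset V) (X ∪ nb X)
      rw [Finset.card_pair (hab t0)] at h5
      have h6 : X.card = s.card := Finset.card_map _
      omega)
  set f : V → V := fun x => if h : x ∈ T' then f0 ⟨x, h⟩ else x with hf
  have hfT : ∀ x (h : x ∈ T'), f x = f0 ⟨x, h⟩ := fun x h => by rw [hf]; simp [h]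
  have hinj : ∀ x ∈ T', ∀ y ∈ T', f x = f y → x = y := by
    intro x hx y hy h
    rw [hfT x hx, hfT y hy] at h
    exact congrArg Subtype.val (hf0 h)
  have hfE : ∀ x ∈ T', (f x = x ∨ E x (f x)) ∧ f x ≠ a t0 ∧ f x ≠ b t0 := by
    intro x hx
    have h := hf0' ⟨x, hx⟩
    rw [← hfT x hx, Finset.mem_sdiff] at h
    simp only [Finset.mem_insert, Finset.mem_singleton, not_or] at h
    exact h
  have hE' : ∀ x ∈ T', f x = x ∨ E x (f x) := fun x hx => (hfE x hx).1
  have hca : ∀ x ∈ T', f x ≠ a t0 := fun x hx => (hfE x hx).2.1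
  have hcb : ∀ x ∈ T', f x ≠ b t0 := fun x hx => (hfE x hx).2.2
  -- the orbits leave `T'`
  have hexit : ∀ c : V, (∀ x ∈ T', f x ≠ c) → ∃ l, f^[l] c ∉ T' := by
    intro c hc
    by_contra hall
    push Not at hall
    obtain ⟨i, j, hij, h⟩ := Finite.exists_ne_map_eq_of_infinite (fun n : ℕ => f^[n] c)
    exact hij (iter_eq f T' hinj c c hc hc i j (fun k _ => hall k) (fun k _ => hall k) h).1
  have horbit : ∀ c : V, (∀ x ∈ T', f x ≠ c) → E t0 c →
      ∃ l, (∀ i < l, f^[i] c ∈ T') ∧ (f^[l] c = t0 ∨ f^[l] c = u) := by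
    intro c hc hE0
    refine ⟨Nat.find (hexit c hc), ?_, ?_⟩
    · intro i hi
      have := Nat.find_min (hexit c hc) hi
      push Not at this
      exact this
    · have h1 := Nat.find_spec (hexit c hc)
      have h2 : ∀ i, (∀ k < i, f^[k] c ∈ T') → f^[i] c ∈ T ∨ f^[i] c = u := by
        intro i hi
        cases i with
        | zero => exact hTu t0 hqm c hE0
        | succ i =>
          have h3 := hi i (by omega)
          rw [Function.iterate_succ_apply']
          rcases hE' _ h3 with h4 | h4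
          · rw [h4]; exact Or.inl ((hT'T _).1 h3).2
          · exact hTu _ ((hT'T _).1 h3).2 _ h4
      rcases h2 (Nat.find (hexit c hc)) (fun k hk => by
        have := Nat.find_min (hexit c hc) hk
        push Not at this
        exact this) with h3 | h3
      · left
        by_contra hne
        exact h1 ((hT'T _).2 ⟨hne, h3⟩)
      · exact Or.inr h3
  have hut0 : u ≠ t0 := fun h => huT (h ▸ hqm)
  have ht0T' : t0 ∉ T' := by rw [hT']; simp
  have hqT' : ∀ i ≤ m, q i ∉ T' := by
    intro i hi hmem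
    rcases Nat.lt_or_ge i m with h | h
    · exact hqT i h ((hT'T _).1 hmem).2
    · have : i = m := by omega
      rw [this, ht0] at hmem
      exact ht0T' hmem
  obtain ⟨m1, hm1, hm1'⟩ := horbit (a t0) hca (Or.inl rfl)
  obtain ⟨m2, hm2, hm2'⟩ := horbit (b t0) hcb (Or.inr rfl)
  have hne : f^[m1] (a t0) ≠ f^[m2] (b t0) := fun h =>
    hab t0 (iter_eq f T' hinj _ _ hca hcb m1 m2 hm1 hm2 h).2
  rcases hm1' with h1 | h1
  · rcases hm2' with h2 | h2
    · exact absurd (h1.trans h2.symm) hne
    · exact assemble E f T' t0 u (a t0) (b t0) hloop hinj hca hcb (hab t0) hE' (Or.inl rfl)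
        (Or.inr rfl) ht0T' m1 m2 m hm1 h1 hm2 h2 q hq0 ht0 hqE hqT' hqinj hut0
  · rcases hm2' with h2 | h2
    · exact assemble E f T' t0 u (b t0) (a t0) hloop hinj hcb hca (hab t0).symm hE' (Or.inr rfl)
        (Or.inl rfl) ht0T' m2 m1 m hm2 h2 hm1 h1 q hq0 ht0 hqE hqT' hqinj hut0
    · exact absurd (h1.trans h2.symm) hne

/-- If all out-degrees are at least two then some inclusion-minimal feedback arc set contains a
directed path with two arcs. -/
theorem two_path {V : Type} [Finite V] [Nonempty V] (G : Digraph V) (hloop : ∀ v, ¬ G.Adj v v)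
    (hdeg : ∀ v : V, 2 ≤ Nat.card {w : V // G.Adj v w}) :
    ∃ F : Set (V × V),
      Minimal (fun S : Set (V × V) =>
              (∀ e ∈ S, G.Adj e.1 e.2) ∧
              ∀ v : V, ¬ Relation.TransGen (fun a b => G.Adj a b ∧ (a, b) ∉ S) v v) F ∧
      ∃ p : Fin (2 + 1) → V, Function.Injective p ∧ ∀ i : Fin 2, (p i.castSucc, p i.succ) ∈ F := by
  have hex : ∀ v : V, ∃ x y : V, G.Adj v x ∧ G.Adj v y ∧ x ≠ y := by
    intro v
    have h1 : 1 < Nat.card {w : V // G.Adj v w} := hdeg v
    rw [Finite.one_lt_card_iff_nontrivial] at h1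
    obtain ⟨x, y, hxy⟩ := h1.exists_pair_ne
    exact ⟨x.1, y.1, x.2, y.2, fun h => hxy (Subtype.ext h)⟩
  choose a b ha hb hab using hex
  obtain ⟨w, N, M, hM, hMN, hinj, harc, h1, h2⟩ := core a b
    (fun v h => hloop v (by have := ha v; rwa [h] at this))
    (fun v h => hloop v (by have := hb v; rwa [h] at this)) hab
  have hE : ∀ x y, (y = a x ∨ y = b x) → G.Adj x y := by
    rintro x y (rfl | rfl)
    · exact ha x
    · exact hb x
  obtain ⟨F, hF, hF1, hF2⟩ := exists_fas_of_path G w N M hMN.le hinj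
    (fun i hi => hE _ _ (harc i hi)) (hE _ _ h1) (hE _ _ h2)
  refine ⟨F, hF, ![w N, w M, w 0], ?_, ?_⟩
  · have e1 : w N ≠ w M := fun h => by have := hinj _ le_rfl _ hMN.le h; omega
    have e2 : w N ≠ w 0 := fun h => by have := hinj _ le_rfl _ (by omega) h; omega
    have e3 : w M ≠ w 0 := fun h => by have := hinj _ hMN.le _ (by omega) h; omega
    intro i j hij
    fin_cases i <;> fin_cases j <;> simp_all
  · intro i
    fin_cases i
    · exact hF1
    · exact hF2

/-- The length of path that minimum out-degree `d` forces in some inclusion-minimal feedback arc set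
is exactly two for every `d ≥ 2`, whatever the girth. Upper bound: for all `d ≥ 1` and `g` there is a
finite loopless digraph with all out-degrees equal to `d` and all closed walks of positive length
of length at least `g`, in which no inclusion-minimal feedback arc set contains a directed walk
(in particular a path) with three arcs. Lower bound: if all out-degrees are at least two then some
inclusion-minimal feedback arc set contains a directed path with two arcs. -/
theorem result :
    (∀ d g : ℕ, 1 ≤ d → ∃ (V : Type) (_ : Finite V) (_ : Nonempty V) (G : Digraph V),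
      (∀ v, ¬ G.Adj v v) ∧
      (∀ v, Nat.card {w : V // G.Adj v w} = d) ∧
      (∀ (n : ℕ) (c : ℕ → V), 0 < n → c n = c 0 → (∀ i < n, G.Adj (c i) (c (i + 1))) → g ≤ n) ∧
      ∀ F : Set (V × V),
        Minimal (fun S : Set (V × V) =>
            (∀ e ∈ S, G.Adj e.1 e.2) ∧
            ∀ v : V, ¬ Relation.TransGen (fun a b => G.Adj a b ∧ (a, b) ∉ S) v v) F →
        ∀ (k : ℕ) (p : Fin (k + 1) → V), (∀ i : Fin k, (p i.castSucc, p i.succ) ∈ F) → k ≤ 2) ∧
    (∀ (V : Type) [Finite V] [Nonempty V] (G : Digraph V),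
      (∀ v, ¬ G.Adj v v) →
      (∀ v : V, 2 ≤ Nat.card {w : V // G.Adj v w}) →
        ∃ F : Set (V × V),
          Minimal (fun S : Set (V × V) =>
              (∀ e ∈ S, G.Adj e.1 e.2) ∧
              ∀ v : V, ¬ Relation.TransGen (fun a b => G.Adj a b ∧ (a, b) ∉ S) v v) F ∧
          ∃ p : Fin (2 + 1) → V, Function.Injective p ∧
            ∀ i : Fin 2, (p i.castSucc, p i.succ) ∈ F) := by
  refine ⟨fun d g hd => ?_, fun V _ _ G hloop hdeg => two_path G hloop hdeg⟩
  refine ⟨W (g + 1) d, inferInstance, ?_, D (g + 1) d, loopless _ _, outdeg _ _, ?_, ?_⟩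
  · exact ⟨(0, .inl ⟨0, hd⟩)⟩
  · intro n c hn hc h
    have := girth (g + 1) d n c h hc hn
    omega
  · intro F hF k p hp
    exact paths (g + 1) d F hF k p hp

end Pool.Agent.Results.MP_8e7993_co.PathsAtMostTwo
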